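import Pool.Agent.P.MP_c7fa75_pr.CDefs
import Pool.Agent.P.MP_c7fa75_pr.T.All

set_option autoImplicit false

open MeasureTheory ProbabilityTheory Filter Topology

namespace Pool.Agent.Results.MP_c7fa75_pr.Criterion

open Pool.Agent.P.MP_c7fa75_pr.T in
/-- The transience criterion for the `k`-th excited walker on leftover environments, for i.i.d.
weakly elliptic stacks with unboundedly many cookies of both signs, under integrability of the
running extrema of the drift sums. -/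
theorem result :
  ∀ (P : Measure (ℤ → ℕ → ℝ)), IsProbabilityMeasure P →
    (∀ᵐ ω ∂P, ∀ (x : ℤ) (n : ℕ), ω x n ∈ Set.Icc (0 : ℝ) 1) →
    iIndepFun (fun (x : ℤ) (ω : ℤ → ℕ → ℝ) => ω x) P →
    (∀ x : ℤ, IdentDistrib (fun ω : ℤ → ℕ → ℝ => ω x) (fun ω => ω 0) P P) →
    (∀ x : ℤ, 0 < P {ω | ∀ n, 0 < ω x n} ∧ 0 < P {ω | ∀ n, ω x n < 1}) →
    (∀ᵐ ω ∂P, ∃ s : EReal, Tendsto (fun N : ℕ => (psum (ω 0) N : EReal)) atTop (𝓝 s)) →
    (∫⁻ ω, ⨆ N : ℕ, ENNReal.ofReal (- psum (ω 0) N) ∂P) < ⊤ →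
    0 ≤ drift P →
    ∀ (Θ : Type) [MeasurableSpace Θ] (μ : Measure Θ), IsProbabilityMeasure μ →
    ∀ (W : Θ → ℤ → ℕ → ℝ) (X : ℕ → Θ → ℕ → ℤ) (env : ℕ → Θ → ℤ → ℕ → ℝ),
    Measurable W → μ.map W = P → (∀ j, Measurable (X j)) →
    env 0 = W →
    (∀ (j : ℕ) (θ : Θ) (x : ℤ) (n : ℕ),
        Tendsto (fun m => |X j θ m|) atTop atTop →
          env (j + 1) θ x n = env j θ x (n + Nat.card {m : ℕ // X j θ m = x})) →
    (∀ (j : ℕ) (θ : Θ) (x : ℤ) (n : ℕ),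
        ¬ Tendsto (fun m => |X j θ m|) atTop atTop → env (j + 1) θ x n = 1 / 2) →
    (∀ (j : ℕ) (θ : Θ), X j θ 0 = 0) →
    (∀ (j : ℕ) (θ : Θ) (n : ℕ), X j θ (n + 1) = X j θ n + 1 ∨ X j θ (n + 1) = X j θ n - 1) →
    (∀ (j n : ℕ),
        condExp
          (MeasurableSpace.comap
            (fun θ => (W θ, (fun i : Fin j => X (i : ℕ) θ), (fun m : Fin (n + 1) => X j θ (m : ℕ))))
            inferInstance)
          μ
          (Set.indicator {θ | X j θ (n + 1) = X j θ n + 1} (fun _ => (1 : ℝ)))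
        =ᵐ[μ] fun θ => env j θ (X j θ n)
          ((Finset.range n).filter (fun m => X j θ m = X j θ n)).card) →
    ∀ k : ℕ, 1 ≤ k →
      ((k : EReal) < drift P → ∀ᵐ θ ∂μ, Tendsto (fun n => X (k - 1) θ n) atTop atTop) ∧
      ((∫⁻ ω, ⨆ N : ℕ, ENNReal.ofReal (psum (ω 0) N) ∂P) < ⊤ →
        (drift P < (k : EReal) ∨ (drift P = (k : EReal) ∧
          Tendsto (fun y : ℕ => ENNReal.ofReal (Real.log y) * ∫⁻ ω, osc (ω 0) y ∂P) atTop (𝓝 0))) →
        μ {θ | Tendsto (fun n => |X (k - 1) θ n|) atTop atTop} = 0) :=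
  all_Main

end Pool.Agent.Results.MP_c7fa75_pr.Criterion
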