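import Pool.Agent.P.MP_c7fa75_pr.HT.Defs
import Pool.Agent.P.MP_c7fa75_pr.HT.K

set_option autoImplicit false

open MeasureTheory Filter Topology

namespace Pool.Agent.Results.MP_c7fa75_pr.HeightTail

open Pool.Agent.P.MP_c7fa75_pr.T (drift)
open Pool.Agent.P.MP_c7fa75_pr.HT (Law Always Never)

/-- Among the laws with drift `d` whose stack height has tail at most `T`, `n T n → L`, the `k`-th
walker can be transient if `k < d + L / 2` and cannot if `d + L / 2 < k`. -/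
theorem result : ∀ (T : ℕ → ℝ) (L : ENNReal),
    Tendsto (fun n : ℕ => ENNReal.ofReal (n * T n)) atTop (𝓝 L) → ∀ k : ℕ, 1 ≤ k →
    ∀ d : ℝ, 0 ≤ d →
    (ENNReal.ofReal d + L / 2 < k →
      ∀ P : Measure (ℤ → ℕ → ℝ), Law T P → drift P = d → Never P k) ∧
    ((k : ENNReal) < ENNReal.ofReal d + L / 2 →
      ∃ P : Measure (ℤ → ℕ → ℝ), Law T P ∧ drift P = d ∧ Always P k ∧ ¬ Never P k) :=
  fun _ _ hT _ hk _ d0 => Pool.Agent.P.MP_c7fa75_pr.HT.shifted hT hk d0

end Pool.Agent.Results.MP_c7fa75_pr.HeightTail
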