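import Mathlib
import Pool.Agent.P.MP_c7fa75_pr.CDefs
import Pool.Agent.P.MP_c7fa75_pr.SP.Defs
import Pool.Agent.P.MP_c7fa75_pr.SP.C

set_option autoImplicit false

open MeasureTheory ProbabilityTheory Filter Topology

namespace Pool.Agent.Results.MP_c7fa75_pr.Spectrum

open Pool.Agent.P.MP_c7fa75_pr.T (psum total drift)
open Pool.Agent.P.MP_c7fa75_pr.SP (Realises)

open Pool.Agent.P.MP_c7fa75_pr.T Pool.Agent.P.MP_c7fa75_pr.R2 Pool.Agent.P.MP_c7fa75_pr.SP in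
/-- The drift `δ`, the number `R` of transient walkers and their direction `ε` can be prescribed
independently of each other, with i.i.d. stacks of finitely many, arbitrarily weak cookies. -/
theorem result :
  ∀ (δ : ENNReal) (R : ℕ∞) (ε : ℤ), (ε = 1 ∨ ε = -1) → ∀ η : ℝ, 0 < η →
    ∃ P : Measure (ℤ → ℕ → ℝ), IsProbabilityMeasure P ∧
    (∀ᵐ ω ∂P, ∀ (x : ℤ) (n : ℕ), ω x n ∈ Set.Icc (0 : ℝ) 1) ∧
    iIndepFun (fun (x : ℤ) (ω : ℤ → ℕ → ℝ) => ω x) P ∧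
    (∀ x : ℤ, IdentDistrib (fun ω : ℤ → ℕ → ℝ => ω x) (fun ω => ω 0) P P) ∧
    (∀ x : ℤ, 0 < P {ω | ∀ n, 0 < ω x n} ∧ 0 < P {ω | ∀ n, ω x n < 1}) ∧
    (∀ᵐ ω ∂P, ∃ s : EReal, Tendsto (fun N : ℕ => (psum (ω 0) N : EReal)) atTop (𝓝 s)) ∧
    (∫⁻ ω, (-(total (ω 0))).toENNReal ∂P) < ⊤ ∧
    drift P = (δ : EReal) ∧
    (δ ≠ ⊤ → ∀ᵐ ω ∂P, Tendsto (psum (ω 0)) atTop (𝓝 δ.toReal)) ∧
    (∀ᵐ ω ∂P, ∀ x : ℤ, (∀ n, |ω x n - 1 / 2| ≤ η) ∧ ∃ M, ∀ n, M ≤ n → ω x n = 1 / 2) ∧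
    (∀ p : ℝ, 0 < p → p < 1 →
      ∫⁻ ω, (∑' i : ℕ, ENNReal.ofReal |2 * ω 0 i - 1|) ^ p ∂P < ⊤) ∧
    (∃ (Θ : Type) (_ : MeasurableSpace Θ) (μ : Measure Θ) (W : Θ → ℤ → ℕ → ℝ)
      (X : ℕ → Θ → ℕ → ℤ) (env : ℕ → Θ → ℤ → ℕ → ℝ), Realises P μ W X env) ∧
    ∀ (Θ : Type) [MeasurableSpace Θ] (μ : Measure Θ) (W : Θ → ℤ → ℕ → ℝ)
      (X : ℕ → Θ → ℕ → ℤ) (env : ℕ → Θ → ℤ → ℕ → ℝ), Realises P μ W X env →
      ∀ k : ℕ, 1 ≤ k →
        ((k : ℕ∞) ≤ R → ∀ᵐ θ ∂μ, Tendsto (fun n => ε * X (k - 1) θ n) atTop atTop) ∧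
        (R < (k : ℕ∞) → μ {θ | Tendsto (fun n => |X (k - 1) θ n|) atTop atTop} = 0) := by
  intro δ R ε hε η hη
  obtain ⟨t, B1, hB1, ht, ht0, htR⟩ := pick_R R
  obtain ⟨s, B2, hs, hsd, hsc⟩ := pick_d δ
  have e1 : |(ε : ℝ)| = 1 := by rcases hε with rfl | rfl <;> simp
  have e2 : (ε : ℝ) * ε = 1 := by rcases hε with rfl | rfl <;> simp
  obtain ⟨F, C, hT, hF, hM, hp, hd⟩ := build (r := fun j => ε * t j) (s := s) (B := max B1 B2) hη
    (le_max_of_le_left hB1) (fun j => by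
      rw [abs_mul, e1, one_mul]
      exact (ht j).trans (div_le_div_of_nonneg_right (le_max_left _ _) (by positivity)))
    (fun j => by
      rw [abs_of_nonneg (hs j).1]
      exact (hs j).2.trans (mul_le_mul_of_nonneg_right (le_max_right _ _) (by positivity)))
  have e3 : ∀ L, (ε : ℝ) * ∑ j ∈ Finset.range L, ε * t j = ∑ j ∈ Finset.range L, t j := fun L => by
    rw [← Finset.mul_sum, ← mul_assoc, e2, one_mul]
  have mF : Measurable F := Measurable.of_discrete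
  set P0 := nu.map F with hP0
  have : IsProbabilityMeasure P0 := Measure.isProbabilityMeasure_map mF.aemeasurable
  set P : Measure (ℤ → ℕ → ℝ) := Measure.infinitePi fun _ => P0 with hP
  have ev : ∀ x : ℤ, P.map (fun ω => ω x) = P0 := fun x => Measure.infinitePi_map_eval _ x
  have tr : ∀ {φ : (ℕ → ℝ) → Prop}, (∀ᵐ w ∂P0, φ w) → ∀ᵐ ω ∂P, ∀ x, φ (ω x) := fun h =>
    ae_all_iff.2 fun x => ae_of_ae_map (measurable_pi_apply x).aemeasurable (ev x ▸ h)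
  have hJ : ∀ᵐ ω ∂P, ∀ x, ∃ J, F J = ω x := tr (ae_rng nu F)
  have h01 : ∀ᵐ ω ∂P, ∀ (x : ℤ) (n : ℕ), ω x n ∈ Set.Icc (0 : ℝ) 1 := tr hT.in01
  have li : ∀ {f : (ℕ → ℝ) → ENNReal}, Measurable f → ∫⁻ ω, f (ω 0) ∂P = ∫⁻ J, f (F J) ∂nu :=
    fun hf => by rw [← lintegral_map hf mF, ← hP0, ← ev 0, lintegral_map hf (measurable_pi_apply 0)]
  have lim : ∀ J, Tendsto (psum (F J)) atTop (𝓝 (s J)) := fun J => by
    obtain ⟨M, h⟩ := hM J
    exact tendsto_const_nhds.congr' ((eventually_ge_atTop M).mono fun n hn => (h n hn).2.symm)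
  have lim' : ∀ J, Tendsto (fun N : ℕ => (psum (F J) N : EReal)) atTop (𝓝 (s J : EReal)) :=
    fun J => (continuous_coe_real_ereal.tendsto _).comp (lim J)
  have tot : ∀ J, total (F J) = s J := fun J => (lim' J).limsup_eq
  have neg : ∫⁻ ω, (-(total (ω 0))).toENNReal ∂P = 0 := by
    rw [li (f := fun w => (-(total w)).toENNReal) meas_total.neg.ereal_toENNReal]
    refine (lintegral_congr fun J => ?_).trans lintegral_zero
    rw [tot]
    exact EReal.toENNReal_of_nonpos (EReal.neg_le.2 (by simpa using (hs J).1))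
  have pos : ∀ {A : Set (ℤ → ℕ → ℝ)}, (∀ᵐ ω ∂P, ω ∈ A) → 0 < P A := fun h =>
    pos_iff_ne_zero.2 fun h0 => by
      obtain ⟨ω, h1, h2⟩ := (h.and (measure_eq_zero_iff_ae_notMem.1 h0)).exists
      exact h2 h1
  have ind : iIndepFun (fun (x : ℤ) (ω : ℤ → ℕ → ℝ) => ω x) P :=
    iIndepFun_infinitePi (X := fun (_ : ℤ) (s : ℕ → ℝ) => s) (fun _ => measurable_id)
  have idd : ∀ x : ℤ, IdentDistrib (fun ω : ℤ → ℕ → ℝ => ω x) (fun ω => ω 0) P P := fun x =>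
    ⟨(measurable_pi_apply x).aemeasurable, (measurable_pi_apply 0).aemeasurable,
      (ev x).trans (ev 0).symm⟩
  refine ⟨P, inferInstance, h01, ind, idd, fun x => ⟨pos ?_, pos ?_⟩, ?_, ?_, ?_, fun h => ?_, ?_,
    fun p p0 p1 => ?_, ⟨_, _, _, _, _, _, exist P h01⟩, ?_⟩
  · exact (tr hT.2.1).mono fun ω h n => by linarith [(h x n).1.1]
  · exact (tr hT.2.1).mono fun ω h n => by linarith [(h x n).1.2]
  · filter_upwards [hJ] with ω h
    obtain ⟨J, h⟩ := h 0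
    exact ⟨_, h ▸ lim' J⟩
  · rw [neg]
    exact ENNReal.zero_lt_top
  · rw [drift, neg, li meas_total.ereal_toENNReal, ← hsd]
    simp only [tot, EReal.real_coe_toENNReal, EReal.coe_ennreal_zero, sub_zero]
  · filter_upwards [hJ] with ω h'
    obtain ⟨J, h'⟩ := h' 0
    exact h' ▸ hsc h J ▸ lim J
  · filter_upwards [hJ] with ω h x
    obtain ⟨J, h⟩ := h x
    obtain ⟨M, h'⟩ := hM J
    exact h ▸ ⟨hF J, M, fun n hn => (h' n hn).1⟩
  · rw [li (f := fun w => (∑' i : ℕ, ENNReal.ofReal |2 * w i - 1|) ^ p)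
      ((Measurable.tsum fun i => by fun_prop).pow_const p)]
    exact hp p p0 p1
  · rintro Θ _ μ W X env ⟨hμ, hW, hmap, hX, he0, heT, heN, hx0, hnn, hce⟩ k hk
    let M : Mod μ :=
      { W := W, X := X, env := env, mW := hW, mX := hX, env0 := he0, envT := heT, envN := heN,
        nn := fun θ => ⟨fun j => hx0 j θ, fun j n => hnn j θ n⟩, ce := hce }
    have aenv : Env μ M.W P0 := by
      have := Mainx.env_of (μ := μ) hW (hmap ▸ ind) (hmap ▸ idd)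
      rwa [hmap, ev 0] at this
    obtain ⟨c1, c2⟩ := mod_core M hT aenv hk hε (hd ε 0 (Eventually.of_forall fun L => by
      rw [e3]
      exact Finset.sum_nonneg fun j _ => ht0 j))
    refine ⟨fun h => c1 (hd ε _ (((htR k).1 h).mono fun L hL => by rwa [e3])), fun h => ?_⟩
    have h3 := c2 ((hd (-ε) (-(k - 1 / 3)) (((htR k).2 h).mono fun L hL => by
      rw [neg_mul, e3]
      linarith)).mono fun n hn => by linarith)
    rw [ae_iff] at h3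
    simp only [not_not] at h3
    exact h3

end Pool.Agent.Results.MP_c7fa75_pr.Spectrum
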